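import Pool.Agent.Helper26.KN.Goals

namespace KN.PkPOS

open Finset PowerSeries

lemma coeff_up (lam : ℝ) (H : PowerSeries ℝ) (j : ℕ) :
    coeff j (up lam H) = lam ^ (j + 1) * coeff j H := by
  unfold up
  rw [coeff_C_mul, coeff_rescale, pow_succ]
  ring

lemma H_rec (lam : ℝ) (H : PowerSeries ℝ) (h : HP lam H) (a : ℕ) :
    coeff (a + 1) H * ((a : ℝ) + 1) =
      ∑ x ∈ antidiagonal a, coeff x.1 H * ((lam ^ (x.2 + 1) - 1) * coeff x.2 H) := by
  have h1 : coeff a (d⁄dX ℝ H) = coeff (a + 1) H * ((a : ℝ) + 1) := by
    rw [coeff_derivative]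
  rw [← h1, h.2, coeff_mul]
  refine Finset.sum_congr rfl fun x _ => ?_
  rw [map_sub, coeff_up]
  ring

lemma Z_rec (q : ℝ) (H Z : PowerSeries ℝ) (h : ZP q H Z) (a : ℕ) :
    coeff (a + 1) Z * ((a : ℝ) + 1) =
      q * ∑ x ∈ antidiagonal a, coeff x.1 H * coeff x.2 Z := by
  have h1 : coeff a (d⁄dX ℝ Z) = coeff (a + 1) Z * ((a : ℝ) + 1) := by
    rw [coeff_derivative]
  rw [← h1, h.2, coeff_C_mul, coeff_mul]

theorem pos : G_POS := by
  intro lam q H Z hlam hq hH hZ
  have hHpos : ∀ a, 0 < coeff a H := by
    intro a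
    induction a using Nat.strong_induction_on with
    | _ a ih =>
      cases a with
      | zero =>
        have := hH.1
        rw [← coeff_zero_eq_constantCoeff_apply] at this
        rw [this]; norm_num
      | succ a =>
        have hrec := H_rec lam H hH a
        have hs : 0 < ∑ x ∈ antidiagonal a, coeff x.1 H * ((lam ^ (x.2 + 1) - 1) * coeff x.2 H) := by
          apply Finset.sum_pos
          · intro x hx
            have hx' := mem_antidiagonal.1 hx
            have h1 : 0 < coeff x.1 H := ih x.1 (by omega)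
            have h2 : 0 < coeff x.2 H := ih x.2 (by omega)
            have h3 : 0 < lam ^ (x.2 + 1) - 1 := by
              have : 1 < lam ^ (x.2 + 1) := one_lt_pow₀ hlam (Nat.succ_ne_zero x.2)
              linarith
            positivity
          · exact ⟨(0, a), by simp⟩
        rw [← hrec] at hs
        have ha : (0 : ℝ) < (a : ℝ) + 1 := by positivity
        exact (pos_iff_pos_of_mul_pos hs).2 ha
  refine ⟨hHpos, ?_⟩
  intro R
  induction R using Nat.strong_induction_on with
  | _ a ih =>
    cases a with
    | zero =>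
      have := hZ.1
      rw [← coeff_zero_eq_constantCoeff_apply] at this
      rw [this]; norm_num
    | succ a =>
      have hrec := Z_rec q H Z hZ a
      have hs : 0 < q * ∑ x ∈ antidiagonal a, coeff x.1 H * coeff x.2 Z := by
        apply mul_pos hq
        apply Finset.sum_pos
        · intro x hx
          have hx' := mem_antidiagonal.1 hx
          exact mul_pos (hHpos x.1) (ih x.2 (by omega))
        · exact ⟨(0, a), by simp⟩
      rw [← hrec] at hs
      have ha : (0 : ℝ) < (a : ℝ) + 1 := by positivity
      exact (pos_iff_pos_of_mul_pos hs).2 ha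

end KN.PkPOS
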